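import Pool.Agent.Run7.h49.Net

/-!
# The derivative of a network with respect to its weights
-/

set_option autoImplicit false

namespace Run7.h49

open MvPolynomial

/-- the sensitivities of the output `net e W x T 0`: `back e W x T s b` belongs to neuron `b` of
layer `T - s` -/
def back {R : Type*} [CommRing R] (e : ℕ → ℕ) (W : ℕ → ℕ → ℕ → R) (x : ℕ → R) (T : ℕ) :
    ℕ → ℕ → R
  | 0 => fun a => if a = 0 then 1 else 0
  | s + 1 => fun b => ∑ a ∈ Finset.range (e (T - s)),
      back e W x T s a * (W (T - (s + 1)) a b * ((ex (T - (s + 1)) : R) *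
        net e W x (T - (s + 1)) b ^ (ex (T - (s + 1)) - 1)))

theorem back_succ {R : Type*} [CommRing R] (e : ℕ → ℕ) (W : ℕ → ℕ → ℕ → R) (x : ℕ → R)
    (T s b : ℕ) :
    back e W x T (s + 1) b = ∑ a ∈ Finset.range (e (T - s)),
      back e W x T s a * (W (T - (s + 1)) a b * ((ex (T - (s + 1)) : R) *
        net e W x (T - (s + 1)) b ^ (ex (T - (s + 1)) - 1))) := rfl

theorem map_back {R S : Type*} [CommRing R] [CommRing S] (f : R →+* S) (e : ℕ → ℕ)
    (W : ℕ → ℕ → ℕ → R) (x : ℕ → R) (T s b : ℕ) :
    f (back e W x T s b) = back e (fun k a b => f (W k a b)) (fun b => f (x b)) T s b := by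
  induction s generalizing b with
  | zero =>
    show f (if b = 0 then 1 else 0) = if b = 0 then 1 else 0
    split_ifs <;> simp
  | succ s ih =>
    rw [back_succ, back_succ, map_sum]
    refine Finset.sum_congr rfl fun a _ => ?_
    rw [map_mul, map_mul, map_mul, map_pow, map_natCast, ih, map_net]

theorem deriv_net {A R : Type*} [CommRing A] [CommRing R] [Algebra A R] (D : Derivation A R R)
    (e : ℕ → ℕ) (W : ℕ → ℕ → ℕ → R) (x : ℕ → R) (k a : ℕ) :
    D (net e W x (k + 1) a) = ∑ b ∈ Finset.range (e k),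
      (D (W k a b) * net e W x k b ^ ex k +
        W k a b * ((ex k : R) * net e W x k b ^ (ex k - 1)) * D (net e W x k b)) := by
  rw [net_succ, map_sum]
  refine Finset.sum_congr rfl fun b _ => ?_
  rw [Derivation.leibniz, Derivation.leibniz_pow]
  simp only [smul_eq_mul, nsmul_eq_mul]
  ring

theorem deriv_back {A R : Type*} [CommRing A] [CommRing R] [Algebra A R] (D : Derivation A R R)
    (e : ℕ → ℕ) (W : ℕ → ℕ → ℕ → R) (x : ℕ → R) (T : ℕ) (hT : 0 < e T) (s : ℕ) (hs : s ≤ T) :
    D (net e W x T 0) =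
      (∑ s' ∈ Finset.range s, ∑ a ∈ Finset.range (e (T - s')),
        ∑ b ∈ Finset.range (e (T - (s' + 1))),
          back e W x T s' a * (D (W (T - (s' + 1)) a b) *
            net e W x (T - (s' + 1)) b ^ ex (T - (s' + 1)))) +
      ∑ b ∈ Finset.range (e (T - s)), back e W x T s b * D (net e W x (T - s) b) := by
  induction s with
  | zero =>
    rw [Finset.sum_range_zero, zero_add, Nat.sub_zero]
    rw [Finset.sum_eq_single_of_mem 0 (Finset.mem_range.mpr hT)]
    · show _ = (if (0 : ℕ) = 0 then (1 : R) else 0) * _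
      rw [if_pos rfl, one_mul]
    · intro b _ hb
      show (if b = 0 then (1 : R) else 0) * _ = 0
      rw [if_neg hb, zero_mul]
  | succ s ih =>
    rw [ih (by omega), Finset.sum_range_succ, add_assoc]
    congr 1
    have h1 : T - s = T - (s + 1) + 1 := by omega
    have h2 : ∀ a, D (net e W x (T - s) a) = ∑ b ∈ Finset.range (e (T - (s + 1))),
      (D (W (T - (s + 1)) a b) * net e W x (T - (s + 1)) b ^ ex (T - (s + 1)) +
        W (T - (s + 1)) a b * ((ex (T - (s + 1)) : R) *
          net e W x (T - (s + 1)) b ^ (ex (T - (s + 1)) - 1)) *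
            D (net e W x (T - (s + 1)) b)) := by
      intro a
      conv_lhs => rw [h1]
      exact deriv_net D e W x _ a
    simp only [h2, back_succ]
    rw [← sub_eq_iff_eq_add', ← Finset.sum_sub_distrib]
    simp only [Finset.sum_mul]
    rw [Finset.sum_comm]
    refine Finset.sum_congr rfl fun a _ => ?_
    rw [Finset.mul_sum, ← Finset.sum_sub_distrib]
    refine Finset.sum_congr rfl fun b _ => ?_
    ring

end Run7.h49
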