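import Mathlib

/-!
# Polynomial networks with the squaring activation

`net e W x k a` is the value of neuron `a` of layer `k` (before activation), for the widths
`e 0, e 1, ...` and the weights `W k a b`.
-/

set_option autoImplicit false

namespace Run7.h49

open MvPolynomial

/-- the exponent used when reading the outputs of layer `k` -/
def ex (k : ℕ) : ℕ := if k = 0 then 1 else 2

/-- the network -/
def net {R : Type*} [CommRing R] (e : ℕ → ℕ) (W : ℕ → ℕ → ℕ → R) (x : ℕ → R) : ℕ → ℕ → R
  | 0 => x
  | k + 1 => fun a => ∑ b ∈ Finset.range (e k), W k a b * net e W x k b ^ ex k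

section

variable {R S : Type*} [CommRing R] [CommRing S]

@[simp] theorem net_zero (e : ℕ → ℕ) (W : ℕ → ℕ → ℕ → R) (x : ℕ → R) : net e W x 0 = x := rfl

theorem net_succ (e : ℕ → ℕ) (W : ℕ → ℕ → ℕ → R) (x : ℕ → R) (k a : ℕ) :
    net e W x (k + 1) a = ∑ b ∈ Finset.range (e k), W k a b * net e W x k b ^ ex k := rfl

theorem map_net (f : R →+* S) (e : ℕ → ℕ) (W : ℕ → ℕ → ℕ → R) (x : ℕ → R) (k a : ℕ) :
    f (net e W x k a) = net e (fun k a b => f (W k a b)) (fun b => f (x b)) k a := by
  induction k generalizing a with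
  | zero => rfl
  | succ k ih =>
    rw [net_succ, net_succ, map_sum]
    refine Finset.sum_congr rfl fun b _ => ?_
    rw [map_mul, map_pow, ih]

/-- widths enter only through the ranges of summation -/
theorem net_mask (e e' : ℕ → ℕ) (h : ∀ k, e k ≤ e' k) (W : ℕ → ℕ → ℕ → R) (x : ℕ → R) (k a : ℕ) :
    net e' (fun k a b => if b < e k then W k a b else 0) x k a = net e W x k a := by
  induction k generalizing a with
  | zero => rfl
  | succ k ih =>
    rw [net_succ, net_succ]
    rw [← Finset.sum_subset (Finset.range_mono (h k))]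
    · refine Finset.sum_congr rfl fun b hb => ?_
      rw [if_pos (Finset.mem_range.mp hb), ih]
    · intro b _ hb
      rw [if_neg (by simpa using hb), zero_mul]

/-- the network only sees the widths of the layers below -/
theorem net_congr (e e' : ℕ → ℕ) (W W' : ℕ → ℕ → ℕ → R) (x : ℕ → R) (k : ℕ)
    (h : ∀ j < k, e j = e' j) (hW : ∀ j < k, W j = W' j) : net e W x k = net e' W' x k := by
  induction k with
  | zero => rfl
  | succ k ih =>
    funext a
    rw [net_succ, net_succ, h k (Nat.lt_succ_self k), hW k (Nat.lt_succ_self k),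
      ih (fun j hj => h j (by omega)) (fun j hj => hW j (by omega))]

end

/-- a function on `Fin (L + 1)` as a function on `ℕ` -/
def ext (L : ℕ) (e : Fin (L + 1) → ℕ) (k : ℕ) : ℕ := if h : k < L + 1 then e ⟨k, h⟩ else 0

/-- a weight system indexed by `Fin L` as a function on `ℕ` -/
def extW {R : Type*} [CommRing R] (L : ℕ) (W : Fin L → ℕ → ℕ → R) (k a b : ℕ) : R :=
  if h : k < L then W ⟨k, h⟩ a b else 0

theorem foldl_eq_aux {R : Type*} [CommRing R] (e : Fin (7 + 1) → ℕ) (W : Fin 7 → ℕ → ℕ → R)
    (x : ℕ → R) :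
    (List.finRange 7).foldl
      (fun (h : ℕ → R) (k : Fin 7) (a : ℕ) =>
        ∑ b ∈ Finset.range (e k.castSucc), W k a b * h b ^ (if (k : ℕ) = 0 then 1 else 2)) x
      = net (ext 7 e) (extW 7 W) x 7 := by
  have h : List.finRange 7 = [0, 1, 2, 3, 4, 5, 6] := by decide
  rw [h]
  rfl

end Run7.h49
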