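import Pool.Agent.Run7.h49.Data
import Pool.Agent.Run7.h49.Net

/-!
# Checking the certificate
-/

set_option autoImplicit false

namespace Run7.h49

/-- bounded universal quantifier -/
def allB (n : ℕ) (f : ℕ → Bool) : Bool := Nat.rec true (fun i ih => f i && ih) n

/-- bounded sum -/
def sumN (n : ℕ) (f : ℕ → ℕ) : ℕ := Nat.rec 0 (fun i ih => ih + f i) n

theorem allB_iff (n : ℕ) (f : ℕ → Bool) : allB n f = true ↔ ∀ i < n, f i = true := by
  induction n with
  | zero => simp [allB]
  | succ n ih =>
    have h : allB (n + 1) f = (f n && allB n f) := rfl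
    rw [h, Bool.and_eq_true, ih]
    constructor
    · rintro ⟨h1, h2⟩ i hi
      rcases Nat.lt_succ_iff_lt_or_eq.mp hi with h3 | h3
      · exact h2 i h3
      · rw [h3]; exact h1
    · intro h1
      exact ⟨h1 n (Nat.lt_succ_self n), fun i hi => h1 i (by omega)⟩

theorem sumN_eq (n : ℕ) (f : ℕ → ℕ) : sumN n f = ∑ i ∈ Finset.range n, f i := by
  induction n with
  | zero => rfl
  | succ n ih =>
    rw [Finset.sum_range_succ, ← ih]
    rfl

/-- widths -/
def ve (k : ℕ) : ℕ := (0x14645432 / 16 ^ k) % 16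

/-- base weights -/
def wd (k a b : ℕ) : ℕ := (WN / 4 ^ (64 * k + 8 * a + b)) % 4

/-- values of the neurons -/
def hd (i k a : ℕ) : ℕ := (HN / 256 ^ (64 * i + 8 * k + a)) % 256

/-- sensitivities -/
def gd (i k a : ℕ) : ℕ := (GN / 256 ^ (64 * i + 8 * k + a)) % 256

/-- directions -/
def kd (j : ℕ) : ℕ := (DN / 512 ^ j) % 8
/-- directions -/
def ad (j : ℕ) : ℕ := (DN / 512 ^ j) / 8 % 8
/-- directions -/
def bd (j : ℕ) : ℕ := (DN / 512 ^ j) / 64 % 8

/-- the Jacobian matrix -/
def md (i j : ℕ) : ℕ := gd i (kd j + 1) (ad j) * hd i (kd j) (bd j) ^ ex (kd j) % 251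

/-- the inverse matrix -/
def bm (j k : ℕ) : ℕ := (BN / 256 ^ (65 * j + k)) % 256

/-- the check of the values -/
def check1 : Bool :=
  allB 65 fun i => (hd i 0 0 == i) && ((hd i 0 1 == 1) &&
    allB 7 fun k => allB (ve (k + 1)) fun a =>
      (sumN (ve k) fun b => wd k a b * hd i k b ^ ex k) % 251 == hd i (k + 1) a)

/-- the check of the sensitivities -/
def check2 : Bool :=
  allB 65 fun i => (gd i 7 0 == 1) &&
    allB 6 fun k => allB (ve (k + 1)) fun b =>
      (sumN (ve (k + 2)) fun a => gd i (k + 2) a * (wd (k + 1) a b * (2 * hd i (k + 1) b))) % 251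
        == gd i (k + 1) b

/-- the check of the directions -/
def check3 : Bool :=
  allB 65 fun j => Nat.blt (kd j) 7 && (Nat.blt (ad j) (ve (kd j + 1)) && (Nat.blt (bd j) (ve (kd j)) &&
    allB j fun j' => !((kd j == kd j') && ((ad j == ad j') && (bd j == bd j')))))

/-- the check of the inverse matrix -/
def check4 (i : ℕ) : Bool :=
  allB 65 fun k => (sumN 65 fun j => md i j * bm j k) % 251 == (cond (i == k) 1 0)

theorem check1_true : check1 = true := by decide +kernel
theorem check2_true : check2 = true := by decide +kernel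
theorem check3_true : check3 = true := by decide +kernel

end Run7.h49
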