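import Pool.Agent.Run7.h49.Check

set_option autoImplicit false

namespace Run7.h49

theorem check4_true : allB 65 check4 = true := by decide +kernel

end Run7.h49
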