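import Pool.Agent.Run7.h49.Check4
import Pool.Agent.Run7.h49.Back

/-!
# The Jacobian matrix is invertible
-/

set_option autoImplicit false

namespace Run7.h49

/-- the point `(i, 1)` -/
def pt (R : Type*) [CommRing R] (i b : ℕ) : R := if b = 0 then (i : R) else if b = 1 then 1 else 0

/-- base weights -/
def wt (R : Type*) [CommRing R] (k a b : ℕ) : R := if k = 6 ∧ a ≠ 0 then 0 else (wd k a b : R)

theorem wt_eq (R : Type*) [CommRing R] (k a b : ℕ) (ha : a < ve (k + 1)) :
    wt R k a b = (wd k a b : R) := by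
  rw [wt, if_neg]
  rintro ⟨rfl, h⟩
  have hv : ve (6 + 1) = 1 := rfl
  rw [hv] at ha
  omega

/-- the Jacobian matrix over a ring -/
def mat (R : Type*) [CommRing R] (i j : ℕ) : R :=
  back ve (wt R) (pt R i) 7 (6 - kd j) (ad j) *
    net ve (wt R) (pt R i) (kd j) (bd j) ^ ex (kd j)

theorem map_mat {R S : Type*} [CommRing R] [CommRing S] (f : R →+* S) (i j : ℕ) :
    f (mat R i j) = mat S i j := by
  have h1 : (fun b => f (pt R i b)) = pt S i := by
    funext b
    simp only [pt]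
    split_ifs <;> simp
  have h2 : (fun k a b => f (wt R k a b)) = wt S := by
    funext k a b
    simp only [wt]
    split_ifs <;> simp
  rw [mat, mat, map_mul, map_pow, map_back, map_net, h1, h2]

theorem cast_mod (n : ℕ) : ((n % 251 : ℕ) : ZMod 251) = (n : ZMod 251) := by
  rw [ZMod.natCast_mod]

theorem hd_eq (i : ℕ) (hi : i < 65) (k : ℕ) (hk : k ≤ 7) :
    ∀ a < ve k, (hd i k a : ZMod 251) = net ve (wt (ZMod 251)) (pt (ZMod 251) i) k a := by
  have h0 := (allB_iff _ _).mp check1_true i hi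
  simp only [Bool.and_eq_true, beq_iff_eq] at h0
  obtain ⟨h1, h2, h3⟩ := h0
  induction k with
  | zero =>
    intro a ha
    have hv : ve 0 = 2 := rfl
    rw [hv] at ha
    have : a = 0 ∨ a = 1 := by omega
    rcases this with rfl | rfl
    · rw [h1]; rfl
    · rw [h2]
      show ((1 : ℕ) : ZMod 251) = 1
      exact Nat.cast_one
  | succ k ih =>
    intro a ha
    have h4 := (allB_iff _ _).mp ((allB_iff _ _).mp h3 k (by omega)) a ha
    rw [beq_iff_eq] at h4
    rw [← h4, cast_mod, sumN_eq, Nat.cast_sum, net_succ]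
    refine Finset.sum_congr rfl fun b hb => ?_
    rw [Nat.cast_mul, Nat.cast_pow, ih (by omega) b (Finset.mem_range.mp hb), wt_eq _ k a b ha]

theorem gd_eq (i : ℕ) (hi : i < 65) (s : ℕ) (hs : s ≤ 6) :
    ∀ b < ve (7 - s), (gd i (7 - s) b : ZMod 251) =
      back ve (wt (ZMod 251)) (pt (ZMod 251) i) 7 s b := by
  have h0 := (allB_iff _ _).mp check2_true i hi
  simp only [Bool.and_eq_true, beq_iff_eq] at h0
  obtain ⟨h1, h3⟩ := h0
  induction s with
  | zero =>
    intro b hb
    have hv : ve (7 - 0) = 1 := rfl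
    rw [hv] at hb
    obtain rfl : b = 0 := by omega
    rw [Nat.sub_zero, h1]
    show ((1 : ℕ) : ZMod 251) = if (0 : ℕ) = 0 then 1 else 0
    rw [if_pos rfl, Nat.cast_one]
  | succ s ih =>
    intro b hb
    obtain ⟨k, hk⟩ : ∃ k, 7 - (s + 1) = k + 1 := ⟨5 - s, by omega⟩
    have hk2 : 7 - s = k + 2 := by omega
    have hk6 : k < 6 := by omega
    rw [back_succ]
    rw [hk] at hb ⊢
    rw [hk2]
    have ih' := ih (by omega)
    rw [hk2] at ih'
    have h4 := (allB_iff _ _).mp ((allB_iff _ _).mp h3 k hk6) b hb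
    rw [beq_iff_eq] at h4
    rw [← h4, cast_mod, sumN_eq, Nat.cast_sum]
    refine Finset.sum_congr rfl fun a ha => ?_
    rw [Nat.cast_mul, ih' a (Finset.mem_range.mp ha), Nat.cast_mul, Nat.cast_mul,
      hd_eq i hi (k + 1) (by omega) b hb]
    have he : ex (k + 1) = 2 := rfl
    rw [he, wt_eq _ (k + 1) a b (Finset.mem_range.mp ha)]
    simp

theorem dir_spec (j : ℕ) (hj : j < 65) : kd j < 7 ∧ ad j < ve (kd j + 1) ∧ bd j < ve (kd j) ∧
    ∀ j' < j, ¬ (kd j = kd j' ∧ ad j = ad j' ∧ bd j = bd j') := by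
  have h0 := (allB_iff _ _).mp check3_true j hj
  rw [Bool.and_eq_true, Bool.and_eq_true, Bool.and_eq_true] at h0
  obtain ⟨h1, h2, h3, h4⟩ := h0
  refine ⟨Nat.blt_eq.mp h1, Nat.blt_eq.mp h2, Nat.blt_eq.mp h3, ?_⟩
  intro j' hj' hcon
  have h5 := (allB_iff _ _).mp h4 j' hj'
  simp [hcon.1, hcon.2.1, hcon.2.2] at h5

theorem dir_inj (i j : ℕ) (hi : i < 65) (hj : j < 65)
    (h : kd i = kd j ∧ ad i = ad j ∧ bd i = bd j) : i = j := by
  rcases lt_trichotomy i j with h1 | h1 | h1
  · exact absurd ⟨h.1.symm, h.2.1.symm, h.2.2.symm⟩ ((dir_spec j hj).2.2.2 i h1)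
  · exact h1
  · exact absurd h ((dir_spec i hi).2.2.2 j h1)

theorem md_eq (i j : ℕ) (hi : i < 65) (hj : j < 65) : (md i j : ZMod 251) = mat (ZMod 251) i j := by
  obtain ⟨h1, h2, h3, -⟩ := dir_spec j hj
  have hs : 7 - (6 - kd j) = kd j + 1 := by omega
  have h4 := gd_eq i hi (6 - kd j) (by omega) (ad j) (by rw [hs]; exact h2)
  rw [hs] at h4
  rw [md, cast_mod, Nat.cast_mul, Nat.cast_pow, h4, hd_eq i hi (kd j) (by omega) (bd j) h3]
  rfl

theorem det_zmod : (Matrix.of fun i j : Fin 65 => mat (ZMod 251) i j).det ≠ 0 := by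
  have h1 : (Matrix.of fun i j : Fin 65 => mat (ZMod 251) i j) *
      (Matrix.of fun j k : Fin 65 => (bm j k : ZMod 251)) = 1 := by
    ext i k
    rw [Matrix.mul_apply, Matrix.one_apply]
    simp only [Matrix.of_apply]
    have h2 : (∑ j : Fin 65, mat (ZMod 251) i j * (bm j k : ZMod 251)) =
        ∑ j : Fin 65, ((md i j * bm j k : ℕ) : ZMod 251) := by
      refine Finset.sum_congr rfl fun j _ => ?_
      rw [Nat.cast_mul, md_eq i j i.2 j.2]
    rw [h2, Fin.sum_univ_eq_sum_range (fun j => ((md i j * bm j k : ℕ) : ZMod 251)),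
      ← Nat.cast_sum, ← sumN_eq, ← cast_mod]
    have h3 := (allB_iff _ _).mp ((allB_iff _ _).mp check4_true i i.2) k k.2
    rw [beq_iff_eq] at h3
    rw [h3]
    by_cases hik : i = k
    · subst hik
      simp
    · have : ((i : ℕ) == (k : ℕ)) = false := by
        rw [beq_eq_false_iff_ne]
        exact fun h => hik (Fin.ext h)
      rw [this, if_neg hik]
      simp
  intro h0
  have h2 := congrArg Matrix.det h1
  rw [Matrix.det_mul, h0, zero_mul, Matrix.det_one] at h2
  exact (by decide : (0 : ZMod 251) ≠ 1) h2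

theorem det_complex : (Matrix.of fun i j : Fin 65 => mat ℂ i j).det ≠ 0 := by
  have h1 : (Matrix.of fun i j : Fin 65 => mat ℤ i j).det ≠ 0 := by
    intro h0
    apply det_zmod
    have h2 : (Matrix.of fun i j : Fin 65 => mat (ZMod 251) i j) =
        (Int.castRingHom (ZMod 251)).mapMatrix (Matrix.of fun i j : Fin 65 => mat ℤ i j) := by
      ext i j
      exact (map_mat (Int.castRingHom (ZMod 251)) i j).symm
    rw [h2, ← RingHom.map_det, h0, map_zero]
  have h2 : (Matrix.of fun i j : Fin 65 => mat ℂ i j) =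
      (Int.castRingHom ℂ).mapMatrix (Matrix.of fun i j : Fin 65 => mat ℤ i j) := by
    ext i j
    exact (map_mat (Int.castRingHom ℂ) i j).symm
  rw [h2, ← RingHom.map_det]
  intro h3
  apply h1
  exact (Int.castRingHom ℂ).injective_int (by rw [h3, map_zero])

end Run7.h49
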