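import Mathlib

/-!
# The Jacobian criterion

If the Jacobian determinant of `n` polynomials in `n` variables over a field of characteristic
zero is non-zero at a point, the polynomials are algebraically independent.
-/

set_option autoImplicit false

namespace Run7.h49

open MvPolynomial

variable {K : Type*} [Field K] {n : ℕ}

/-- the chain rule -/
theorem pderiv_aeval_eq (φ : Fin n → MvPolynomial (Fin n) K) (Q : MvPolynomial (Fin n) K)
    (j : Fin n) :
    pderiv j (aeval φ Q) = ∑ i, aeval φ (pderiv i Q) * pderiv j (φ i) := by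
  induction Q using MvPolynomial.induction_on with
  | C a =>
    simp
  | add p q hp hq =>
    rw [map_add, map_add, hp, hq, ← Finset.sum_add_distrib]
    refine Finset.sum_congr rfl fun i _ => ?_
    rw [map_add, map_add, add_mul]
  | mul_X p k hp =>
    rw [map_mul, aeval_X, pderiv_mul, hp]
    have h : ∀ i, aeval φ (pderiv i (p * X k)) * pderiv j (φ i) =
        aeval φ (pderiv i p) * pderiv j (φ i) * φ k +
          (if i = k then aeval φ p * pderiv j (φ k) else 0) := by
      intro i
      rw [pderiv_mul, map_add, map_mul, map_mul, aeval_X]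
      by_cases hik : i = k
      · subst hik
        rw [pderiv_X_self, map_one, if_pos rfl]
        ring
      · rw [pderiv_X_of_ne (Ne.symm hik), map_zero, if_neg hik]
        ring
    rw [Finset.sum_congr rfl fun i _ => h i, Finset.sum_add_distrib, Finset.sum_mul]
    simp

theorem eq_C_of_pderiv [CharZero K] (Q : MvPolynomial (Fin n) K) (h : ∀ i, pderiv i Q = 0) :
    Q = C (coeff 0 Q) := by
  ext m
  rw [coeff_C]
  split_ifs with hm
  · rw [hm]
  · have : ∃ i, m i ≠ 0 := by
      by_contra hcon
      push Not at hcon
      exact hm (Finsupp.ext fun i => by simp [hcon i])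
    obtain ⟨i, hi⟩ := this
    have h1 := h i
    have h2 : coeff (m - Finsupp.single i 1) (pderiv i Q) = 0 := by rw [h1, coeff_zero]
    rw [coeff_pderiv] at h2
    have h3 : m - Finsupp.single i 1 + Finsupp.single i 1 = m := by
      apply Finsupp.ext
      intro j
      by_cases hj : j = i
      · subst hj
        simp
        omega
      · simp [Ne.symm hj]
    rw [h3] at h2
    rcases mul_eq_zero.mp h2 with h4 | h4
    · exact h4
    · exfalso
      exact Nat.cast_add_one_ne_zero _ h4

theorem totalDegree_pderiv_lt [CharZero K] (Q : MvPolynomial (Fin n) K) (i : Fin n)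
    (h : pderiv i Q ≠ 0) : (pderiv i Q).totalDegree < Q.totalDegree := by
  obtain ⟨m, hm, hm'⟩ : ∃ m ∈ (pderiv i Q).support,
      (pderiv i Q).totalDegree = m.sum fun _ k => k := by
    rw [totalDegree]
    exact Finset.exists_mem_eq_sup _ (by
      rw [Finset.nonempty_iff_ne_empty]
      intro h0
      exact h (support_eq_empty.mp h0)) _
  rw [hm']
  have h1 : coeff (m + Finsupp.single i 1) Q ≠ 0 := by
    intro h0
    rw [mem_support_iff, coeff_pderiv, h0, zero_mul] at hm
    exact hm rfl
  have h2 := le_totalDegree (mem_support_iff.mpr h1)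
  have h3 : (m + Finsupp.single i 1).sum (fun _ k => k) = (m.sum fun _ k => k) + 1 := by
    rw [Finsupp.sum_add_index' (fun _ => rfl) (fun _ _ _ => rfl), Finsupp.sum_single_index rfl]
  omega

/-- the Jacobian criterion -/
theorem jac [CharZero K] (φ : Fin n → MvPolynomial (Fin n) K) (a : Fin n → K)
    (h : (Matrix.of fun i j => eval a (pderiv j (φ i))).det ≠ 0) :
    ∀ Q : MvPolynomial (Fin n) K, aeval φ Q = 0 → Q = 0 := by
  have hdet : (Matrix.of fun i j => pderiv j (φ i)).det ≠ 0 := by
    intro h0
    apply h
    have h1 : (Matrix.of fun i j => eval a (pderiv j (φ i))) =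
        (eval a).mapMatrix (Matrix.of fun i j => pderiv j (φ i)) := by
      ext i j
      rfl
    rw [h1, ← RingHom.map_det, h0, map_zero]
  suffices H : ∀ d : ℕ, ∀ Q : MvPolynomial (Fin n) K, Q.totalDegree < d → aeval φ Q = 0 → Q = 0 from
    fun Q => H (Q.totalDegree + 1) Q (Nat.lt_succ_self _)
  intro d
  induction d with
  | zero => intro Q hQ; omega
  | succ d ih =>
    intro Q hQd hQ
    have h1 : (fun i => aeval φ (pderiv i Q)) = 0 := by
      apply Matrix.eq_zero_of_vecMul_eq_zero hdet
      funext j
      have h2 := pderiv_aeval_eq φ Q j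
      rw [hQ, map_zero] at h2
      rw [Pi.zero_apply, h2]
      rfl
    have h3 : ∀ i, pderiv i Q = 0 := by
      intro i
      by_contra hi
      have h4 := totalDegree_pderiv_lt Q i hi
      exact hi (ih _ (by omega) (congrFun h1 i))
    rw [eq_C_of_pderiv Q h3] at hQ ⊢
    rw [aeval_C] at hQ
    have h5 : (coeff 0 Q) = 0 := by
      have := hQ
      rw [MvPolynomial.algebraMap_eq] at this
      exact C_injective _ _ (by rw [this, C_0])
    rw [h5, C_0]

end Run7.h49
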