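import Mathlib

/-!
# Families in a field generated by few elements are algebraically dependent
-/

set_option autoImplicit false

namespace Run7.h49

open Cardinal MvPolynomial

open scoped IntermediateField.algebraAdjoinAdjoin in
theorem trdeg_adjoin_le {K L : Type} [Field K] [Field L] [Algebra K L] (s : Finset L) :
    Algebra.trdeg K (IntermediateField.adjoin K (s : Set L)) ≤ (s.card : Cardinal) := by
  classical
  have h1 : Algebra.trdeg K (Algebra.adjoin K (s : Set L)) ≤ (s.card : Cardinal) := by
    have hrange : (MvPolynomial.aeval (R := K) ((↑) : s → L)).range = Algebra.adjoin K (s : Set L) := by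
      rw [← Algebra.adjoin_range_eq_range_aeval]
      congr 1
      exact Subtype.range_coe
    let f : MvPolynomial s K →ₐ[K] Algebra.adjoin K (s : Set L) :=
      (Subalgebra.inclusion (le_of_eq hrange)).comp (MvPolynomial.aeval (R := K) ((↑) : s → L)).rangeRestrict
    have hf : Function.Surjective f := by
      intro x
      obtain ⟨y, hy⟩ : (x : L) ∈ (MvPolynomial.aeval (R := K) ((↑) : s → L)).range := by
        rw [hrange]; exact x.2
      exact ⟨y, Subtype.ext hy⟩
    have h2 := trdeg_le_of_surjective f hf
    rw [MvPolynomial.trdeg_of_isDomain] at h2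
    simpa using h2
  have h3 : Algebra.trdeg (Algebra.adjoin K (s : Set L))
      (IntermediateField.adjoin K (s : Set L)) = 0 := trdeg_eq_zero
  rw [← trdeg_add_eq K (Algebra.adjoin K (s : Set L))
    (A := IntermediateField.adjoin K (s : Set L)), h3, add_zero]
  exact h1

/-- `n` elements of a field generated by fewer than `n` elements satisfy a polynomial relation -/
theorem exists_relation {K L : Type} [Field K] [Field L] [Algebra K L] (s : Finset L) {n : ℕ}
    (hn : s.card < n) (φ : Fin n → L) (hφ : ∀ i, φ i ∈ IntermediateField.adjoin K (s : Set L)) :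
    ∃ Q : MvPolynomial (Fin n) K, Q ≠ 0 ∧ aeval φ Q = 0 := by
  by_contra hcon
  push Not at hcon
  have hind : AlgebraicIndependent K φ := by
    rw [algebraicIndependent_iff]
    intro p hp
    by_contra h0
    exact hcon p h0 hp
  let ψ : Fin n → IntermediateField.adjoin K (s : Set L) := fun i => ⟨φ i, hφ i⟩
  have hψ : AlgebraicIndependent K ψ :=
    AlgebraicIndependent.of_comp (IntermediateField.adjoin K (s : Set L)).val hind
  have h1 := hψ.lift_cardinalMk_le_trdeg
  have h2 := trdeg_adjoin_le (K := K) s
  simp only [Cardinal.mk_fin, Cardinal.lift_id] at h1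
  have h3 := h1.trans h2
  have h4 : n ≤ s.card := by exact_mod_cast h3
  omega

end Run7.h49
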