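import Pool.Agent.Run7.h49.Over
import Pool.Agent.Run7.h49.Trdeg

/-!
# Filling networks, and an upper bound for the dimension
-/

set_option autoImplicit false

namespace Run7.h49

open MvPolynomial

/-- the monomials of degree `64` in two variables -/
noncomputable def mon (i : Fin 65) : ℕ →₀ ℕ :=
  Finsupp.single 0 (i : ℕ) + Finsupp.single 1 (64 - (i : ℕ))

theorem mon_zero (i : Fin 65) : mon i 0 = (i : ℕ) := by
  simp [mon]

theorem mon_injective : Function.Injective mon := by
  intro i j h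
  have h1 := mon_zero i
  rw [h, mon_zero j] at h1
  exact Fin.ext h1.symm

/-- the network of depth `7` with quadratic activation, input width `e 0` and output width `e 7`
fills the space of tuples of forms of degree `64` -/
def Fill (e : ℕ → ℕ) : Prop :=
  ∀ P : MvPolynomial (ℕ × (ℕ →₀ ℕ)) ℂ,
    (∀ W : ℕ → ℕ → ℕ → ℂ, eval (fun p => coeff p.2 (gnet e W 7 p.1)) P = 0) →
    ∀ c : ℕ × (ℕ →₀ ℕ) → ℂ,
      (∀ p : ℕ × (ℕ →₀ ℕ), c p ≠ 0 →
        p.1 < e 7 ∧ (∑ b ∈ p.2.support, p.2 b) = 2 ^ (7 - 1) ∧ ∀ b ∈ p.2.support, b < e 0) →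
      eval c P = 0

theorem Fill.mono {e e' : ℕ → ℕ} (h : ∀ k, e k ≤ e' k) (h0 : e 0 = e' 0) (h7 : e 7 = e' 7)
    (he : Fill e) : Fill e' := by
  intro P hP c hc
  refine he P (fun W => ?_) c (by rw [h0, h7]; exact hc)
  have h1 := hP (fun k a b => if b < e k then W k a b else 0)
  have h2 : ∀ a, gnet e' (fun k a b => if b < e k then W k a b else 0) 7 a = gnet e W 7 a := by
    intro a
    rw [gnet, gnet, ← net_mask e e' h]
    congr 1
    funext k a b
    split_ifs
    · rfl
    · exact C_0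
  simpa only [h2] using h1

section comp

variable {R : Type*} [CommRing R]

theorem gnet_comp (e : ℕ → ℕ) (W : ℕ → ℕ → ℕ → R) (i s a : ℕ) :
    gnet e W (i + (s + 1)) a = aeval (fun b => gnet e W i b ^ ex i)
      (gnet (fun k => e (i + k)) (fun k => W (i + k)) (s + 1) a) := by
  have h1 : ∀ a, aeval (fun b => gnet e W i b ^ ex i)
      (gnet (fun k => e (i + k)) (fun k => W (i + k)) (s + 1) a) =
      net (fun k => e (i + k)) (fun k a b => (C (W (i + k) a b) : MvPolynomial ℕ R))
        (fun b => gnet e W i b ^ ex i) (s + 1) a := by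
    intro a
    have h := map_net ((aeval (R := R) (fun b => gnet e W i b ^ ex i) :
      MvPolynomial ℕ R →ₐ[R] MvPolynomial ℕ R) : MvPolynomial ℕ R →+* MvPolynomial ℕ R)
      (fun k => e (i + k)) (fun k a b => (C (W (i + k) a b) : MvPolynomial ℕ R)) X (s + 1) a
    simp only [RingHom.coe_coe, aeval_X, aeval_C, MvPolynomial.algebraMap_eq] at h
    exact h
  rw [h1]
  clear h1
  induction s generalizing a with
  | zero =>
    rw [net_succ]
    show gnet e W (i + 1) a = _
    rw [gnet_succ]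
    refine Finset.sum_congr rfl fun b _ => ?_
    show _ = C (W i a b) * (gnet e W i b ^ ex i) ^ 1
    rw [pow_one]
  | succ s ih =>
    rw [net_succ]
    show gnet e W (i + (s + 1) + 1) a = _
    rw [gnet_succ]
    refine Finset.sum_congr rfl fun b _ => ?_
    rw [ih b]
    rfl

end comp

section bound

variable {K L : Type} [Field K] [Field L] [Algebra K L]

theorem rep_zero (n : ℕ) (e : ℕ → ℕ) (W : ℕ → ℕ → ℕ → L) : Rep K ∅ n (gnet e W 0) := by
  intro b _
  refine ⟨1, X b, X_mem_over _ b, ?_⟩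
  rw [C_1, one_mul]
  rfl

theorem Rep.seg {s : Finset L} {e : ℕ → ℕ} {W : ℕ → ℕ → ℕ → L} {i : ℕ}
    (hs : Rep K s (e i) (gnet e W i)) (t : ℕ) :
    ∃ s' : Finset L,
      s'.card ≤ s.card + e (i + (t + 1)) * ((e i + 2 ^ t - 1).choose (2 ^ t) - 1) ∧
      Rep K s' (e (i + (t + 1))) (gnet e W (i + (t + 1))) := by
  have hG : ∀ a μ, coeff μ (gnet (fun k => e (i + k)) (fun k => W (i + k)) (t + 1) a) ≠ 0 →
      μ ∈ Finset.finsuppAntidiag (Finset.range (e i)) (2 ^ t) := by
    intro a μ hμ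
    have h1 := gnet_coeff (fun k => e (i + k)) (fun k => W (i + k)) t a μ hμ
    simpa only [Nat.add_zero] using h1
  have h := hs.step (ex i) (Finset.finsuppAntidiag (Finset.range (e i)) (2 ^ t))
    (fun μ hμ => (Finset.mem_finsuppAntidiag'.mp hμ).2) (e (i + (t + 1)))
    (gnet e W (i + (t + 1)))
    (gnet (fun k => e (i + k)) (fun k => W (i + k)) (t + 1)) hG (fun a => gnet_comp e W i t a)
  rw [Finset.card_finsuppAntidiag_nat_eq_choose, Finset.card_range] at h
  exact h

theorem Rep.seg_final {s : Finset L} {e : ℕ → ℕ} {W : ℕ → ℕ → ℕ → L} {i : ℕ}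
    (hs : Rep K s (e i) (gnet e W i)) (t : ℕ) :
    ∃ s' : Finset L, s'.card ≤ s.card + (e i + 2 ^ t - 1).choose (2 ^ t) ∧
      ∀ m, coeff m (gnet e W (i + (t + 1)) 0) ∈ IntermediateField.adjoin K (s' : Set L) := by
  have hG : ∀ μ, coeff μ (gnet (fun k => e (i + k)) (fun k => W (i + k)) (t + 1) 0) ≠ 0 →
      μ ∈ Finset.finsuppAntidiag (Finset.range (e i)) (2 ^ t) := by
    intro μ hμ
    have h1 := gnet_coeff (fun k => e (i + k)) (fun k => W (i + k)) t 0 μ hμ
    simpa only [Nat.add_zero] using h1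
  have h := hs.final (ex i) (Finset.finsuppAntidiag (Finset.range (e i)) (2 ^ t))
    (fun μ hμ => (Finset.mem_finsuppAntidiag'.mp hμ).2)
    (gnet e W (i + (t + 1)) 0)
    (gnet (fun k => e (i + k)) (fun k => W (i + k)) (t + 1) 0) hG (gnet_comp e W i t 0)
  rw [Finset.card_finsuppAntidiag_nat_eq_choose, Finset.card_range] at h
  exact h

end bound

/-- the generic weights -/
noncomputable def gw (k a b : ℕ) : FractionRing (MvPolynomial (ℕ × ℕ × ℕ) ℂ) :=
  algebraMap (MvPolynomial (ℕ × ℕ × ℕ) ℂ) _ (X (k, a, b))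

/-- if the coefficients of the output of the generic network lie in a field generated by at most
`64` elements then the network is not filling -/
theorem not_fill_of_bound (e : ℕ → ℕ) (h0 : e 0 = 2) (h7 : e 7 = 1)
    (h : ∃ s : Finset (FractionRing (MvPolynomial (ℕ × ℕ × ℕ) ℂ)), s.card < 65 ∧
      ∀ m, coeff m (gnet e gw 7 0) ∈ IntermediateField.adjoin ℂ
        (s : Set (FractionRing (MvPolynomial (ℕ × ℕ × ℕ) ℂ)))) : ¬ Fill e := by
  classical
  intro hfill
  obtain ⟨s, hs, hm⟩ := h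
  obtain ⟨Q, hQ0, hQ⟩ := exists_relation (K := ℂ) s hs (fun i => coeff (mon i) (gnet e gw 7 0))
    (fun i => hm _)
  -- the relation over the polynomial ring in the weights
  let w0 : ℕ → ℕ → ℕ → MvPolynomial (ℕ × ℕ × ℕ) ℂ := fun k a b => X (k, a, b)
  let φ0 : Fin 65 → MvPolynomial (ℕ × ℕ × ℕ) ℂ := fun i => coeff (mon i) (gnet e w0 7 0)
  have hφ : ∀ i, algebraMap (MvPolynomial (ℕ × ℕ × ℕ) ℂ)
      (FractionRing (MvPolynomial (ℕ × ℕ × ℕ) ℂ)) (φ0 i) = coeff (mon i) (gnet e gw 7 0) := by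
    intro i
    show algebraMap _ _ (coeff (mon i) (gnet e w0 7 0)) = _
    rw [← coeff_map]
    congr 1
    have h1 := map_net (MvPolynomial.map (σ := ℕ) (algebraMap (MvPolynomial (ℕ × ℕ × ℕ) ℂ)
      (FractionRing (MvPolynomial (ℕ × ℕ × ℕ) ℂ)))) e
      (fun k a b => C (w0 k a b)) X 7 0
    simp only [map_C, map_X] at h1
    exact h1
  have hQ1 : aeval φ0 Q = 0 := by
    apply IsFractionRing.injective (MvPolynomial (ℕ × ℕ × ℕ) ℂ)
      (FractionRing (MvPolynomial (ℕ × ℕ × ℕ) ℂ))
    rw [map_zero, ← hQ, ← MvPolynomial.aeval_algebraMap_apply]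
    congr 2
    funext i
    exact hφ i
  -- the polynomial that vanishes on all outputs
  let P : MvPolynomial (ℕ × (ℕ →₀ ℕ)) ℂ := rename (fun i : Fin 65 => ((0 : ℕ), mon i)) Q
  have hP : ∀ W : ℕ → ℕ → ℕ → ℂ, eval (fun p => coeff p.2 (gnet e W 7 p.1)) P = 0 := by
    intro W
    show eval _ (rename _ Q) = 0
    rw [eval_rename]
    have h2 : ∀ i : Fin 65, coeff (mon i) (gnet e W 7 0) =
        eval (fun q : ℕ × ℕ × ℕ => W q.1 q.2.1 q.2.2) (φ0 i) := by
      intro i
      show _ = eval _ (coeff (mon i) (gnet e w0 7 0))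
      rw [← coeff_map]
      congr 1
      have h1 := map_net (MvPolynomial.map (σ := ℕ)
        (eval (fun q : ℕ × ℕ × ℕ => W q.1 q.2.1 q.2.2))) e
        (fun k a b => C (w0 k a b)) X 7 0
      simp only [map_C, map_X, w0, eval_X] at h1
      exact h1.symm
    have h3 : ((fun p : ℕ × (ℕ →₀ ℕ) => coeff p.2 (gnet e W 7 p.1)) ∘
        fun i : Fin 65 => ((0 : ℕ), mon i)) =
        fun i => eval (fun q : ℕ × ℕ × ℕ => W q.1 q.2.1 q.2.2) (φ0 i) := by
      funext i
      exact h2 i
    rw [h3]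
    have h4 := congrArg (eval (fun q : ℕ × ℕ × ℕ => W q.1 q.2.1 q.2.2)) hQ1
    rw [map_zero] at h4
    rw [← h4, ← coe_aeval_eq_eval, ← coe_aeval_eq_eval, RingHom.coe_coe, RingHom.coe_coe,
      ← MvPolynomial.comp_aeval_apply]
  apply hQ0
  apply MvPolynomial.funext
  intro v
  rw [map_zero]
  let c : ℕ × (ℕ →₀ ℕ) → ℂ := fun p => ∑ i : Fin 65, if p = ((0 : ℕ), mon i) then v i else 0
  have hc : ∀ i : Fin 65, c ((0 : ℕ), mon i) = v i := by
    intro i
    show (∑ j : Fin 65, if ((0 : ℕ), mon i) = ((0 : ℕ), mon j) then v j else 0) = v i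
    rw [Finset.sum_eq_single i]
    · rw [if_pos rfl]
    · intro j _ hj
      rw [if_neg]
      intro hij
      exact hj (mon_injective (Prod.ext_iff.mp hij).2).symm
    · intro hi
      exact absurd (Finset.mem_univ i) hi
  have h5 := hfill P hP c ?_
  · have h6 : eval c P = eval v Q := by
      show eval c (rename _ Q) = _
      rw [eval_rename]
      congr 2
      funext i
      exact hc i
    rw [← h6]
    exact h5
  · intro p hp
    have h7' : ∃ i : Fin 65, p = ((0 : ℕ), mon i) := by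
      by_contra hcon
      push Not at hcon
      apply hp
      exact Finset.sum_eq_zero fun i _ => if_neg (hcon i)
    obtain ⟨i, rfl⟩ := h7'
    refine ⟨by rw [h7]; exact Nat.zero_lt_one, ?_, ?_⟩
    · show (∑ b ∈ (mon i).support, mon i b) = 2 ^ (7 - 1)
      have h8 : (mon i).degree = 64 := by
        rw [mon, map_add, Finsupp.degree_single, Finsupp.degree_single]
        omega
      rw [← Finsupp.degree_apply, h8]
      norm_num
    · intro b hb
      rw [h0]
      by_contra hb2
      have h9 : mon i b = 0 := by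
        rw [mon, Finsupp.add_apply, Finsupp.single_apply, Finsupp.single_apply,
          if_neg (by omega), if_neg (by omega), add_zero]
      exact (Finsupp.mem_support_iff.mp hb) h9

end Run7.h49
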