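import Pool.Agent.Run7.h49.Det
import Pool.Agent.Run7.h49.Jac
import Pool.Agent.Run7.h49.NonFill

/-!
# The network with widths `2, 3, 4, 5, 4, 6, 4, 1` is filling
-/

set_option autoImplicit false

namespace Run7.h49

open MvPolynomial

/-- the polynomial ring in the 65 moving weights -/
abbrev SS : Type := MvPolynomial (Fin 65) ℂ

/-- the weights, 65 of them moving -/
noncomputable def wu (k a b : ℕ) : SS :=
  if k = 6 ∧ a ≠ 0 then 0 else C (wd k a b : ℂ) +
    ∑ j : Fin 65, if kd j = k ∧ ad j = a ∧ bd j = b then X j else 0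

theorem pderiv_wu (j : Fin 65) (k a b : ℕ) : pderiv j (wu k a b) =
    if k = 6 ∧ a ≠ 0 then 0 else if kd j = k ∧ ad j = a ∧ bd j = b then 1 else 0 := by
  rw [wu]
  split_ifs with h1 h2
  · exact map_zero _
  · rw [map_add, pderiv_C, zero_add, map_sum, Finset.sum_eq_single j]
    · rw [if_pos h2, pderiv_X_self]
    · intro i _ hij
      split_ifs
      · exact pderiv_X_of_ne hij
      · exact map_zero _
    · intro h
      exact absurd (Finset.mem_univ j) h
  · rw [map_add, pderiv_C, zero_add, map_sum]
    refine Finset.sum_eq_zero fun i _ => ?_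
    split_ifs with h3
    · apply pderiv_X_of_ne
      rintro rfl
      exact h2 h3
    · exact map_zero _

theorem eval_wu (k a b : ℕ) : eval (0 : Fin 65 → ℂ) (wu k a b) = wt ℂ k a b := by
  rw [wu, wt]
  split_ifs
  · exact map_zero _
  · rw [map_add, eval_C, map_sum]
    rw [Finset.sum_eq_zero, add_zero]
    intro i _
    split_ifs
    · rw [eval_X]; rfl
    · exact map_zero _

theorem eval_pt (i b : ℕ) : eval (0 : Fin 65 → ℂ) (pt SS i b) = pt ℂ i b := by
  simp only [pt]
  split_ifs <;> simp

theorem pderiv_pt (j : Fin 65) (i b : ℕ) : pderiv j (pt SS i b) = 0 := by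
  simp only [pt]
  split_ifs
  · exact Derivation.map_natCast _ _
  · exact pderiv_one
  · exact map_zero _

theorem eval_pderiv_net (i : ℕ) (j : Fin 65) :
    eval (0 : Fin 65 → ℂ) (pderiv j (net ve wu (pt SS i) 7 0)) = mat ℂ i j := by
  obtain ⟨h1, h2, h3, -⟩ := dir_spec j j.2
  have hv7 : 0 < ve 7 := by decide
  have h := deriv_back (pderiv j) ve wu (pt SS i) 7 hv7 7 le_rfl
  have hz : (∑ b ∈ Finset.range (ve (7 - 7)), back ve wu (pt SS i) 7 7 b *
      (pderiv j) (net ve wu (pt SS i) (7 - 7) b)) = 0 := by
    refine Finset.sum_eq_zero fun b _ => ?_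
    have : net ve wu (pt SS i) (7 - 7) b = pt SS i b := rfl
    rw [this, pderiv_pt, mul_zero]
  rw [hz, add_zero] at h
  have hs : 7 - (6 - kd j) = kd j + 1 := by omega
  have hs2 : 7 - (6 - kd j + 1) = kd j := by omega
  rw [Finset.sum_eq_single_of_mem (6 - kd j) (Finset.mem_range.mpr (by omega)),
    Finset.sum_eq_single_of_mem (ad j) (Finset.mem_range.mpr (by rw [hs]; exact h2)),
    Finset.sum_eq_single_of_mem (bd j) (Finset.mem_range.mpr (by rw [hs2]; exact h3))] at h
  · rw [h, hs2, pderiv_wu, if_neg, if_pos ⟨rfl, rfl, rfl⟩, one_mul, map_mul, map_pow, map_back,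
      map_net, mat]
    · simp only [eval_wu, eval_pt]
    · rintro ⟨h4, h5⟩
      rw [h4] at h2
      have hv : ve (6 + 1) = 1 := rfl
      rw [hv] at h2
      omega
  · intro b _ hb
    rw [hs2, pderiv_wu]
    split_ifs with h4 h5
    · rw [zero_mul, mul_zero]
    · exact absurd h5.2.2.symm hb
    · rw [zero_mul, mul_zero]
  · intro a _ ha
    refine Finset.sum_eq_zero fun b _ => ?_
    rw [hs2, pderiv_wu]
    split_ifs with h4 h5
    · rw [zero_mul, mul_zero]
    · exact absurd h5.2.1.symm ha
    · rw [zero_mul, mul_zero]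
  · intro s' hs' hne
    refine Finset.sum_eq_zero fun a _ => Finset.sum_eq_zero fun b _ => ?_
    rw [pderiv_wu]
    split_ifs with h4 h5
    · rw [zero_mul, mul_zero]
    · exfalso
      have := Finset.mem_range.mp hs'
      apply hne
      omega
    · rw [zero_mul, mul_zero]

theorem gnet_coeff' {R : Type*} [CommRing R] (e : ℕ → ℕ) (W : ℕ → ℕ → ℕ → R) (k a : ℕ)
    (μ : ℕ →₀ ℕ) (n : ℕ) (hn : n = 2 ^ k) (h : coeff μ (gnet e W (k + 1) a) ≠ 0) :
    μ.degree = n ∧ μ.support ⊆ Finset.range (e 0) := by
  rw [hn]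
  have := gnet_coeff e W k a μ h
  rw [Finset.mem_finsuppAntidiag'] at this
  exact this

/-- the coefficients of the output -/
noncomputable def phi (m : Fin 65) : SS := coeff (mon m) (gnet ve wu 7 0)

theorem mem_mon {μ : ℕ →₀ ℕ} (h1 : μ.degree = 64) (h2 : μ.support ⊆ Finset.range 2) :
    ∃ m : Fin 65, μ = mon m := by
  rw [Finsupp.degree_apply, Finset.sum_subset h2
    (fun b _ hb => Finsupp.notMem_support_iff.mp hb)] at h1
  rw [Finset.sum_range_succ, Finset.sum_range_succ, Finset.sum_range_zero, zero_add] at h1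
  refine ⟨⟨μ 0, by omega⟩, ?_⟩
  apply Finsupp.ext
  intro b
  rw [mon, Finsupp.add_apply, Finsupp.single_apply, Finsupp.single_apply]
  by_cases hb0 : b = 0
  · subst hb0
    simp
  · by_cases hb1 : b = 1
    · subst hb1
      simp
      omega
    · have : b ∉ μ.support := fun h => by
        have := Finset.mem_range.mp (h2 h)
        omega
      rw [Finsupp.notMem_support_iff.mp this, if_neg (Ne.symm hb0), if_neg (Ne.symm hb1), add_zero]

theorem gnet_eq_sum {R : Type*} [CommRing R] (e : ℕ → ℕ) (h0 : e 0 = 2) (W : ℕ → ℕ → ℕ → R) (a : ℕ) :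
    gnet e W 7 a = ∑ m : Fin 65, monomial (mon m) (coeff (mon m) (gnet e W 7 a)) := by
  classical
  ext μ
  rw [coeff_sum]
  by_cases h : ∃ m : Fin 65, μ = mon m
  · obtain ⟨m, rfl⟩ := h
    rw [Finset.sum_eq_single m]
    · rw [coeff_monomial, if_pos rfl]
    · intro i _ hi
      rw [coeff_monomial, if_neg]
      exact fun hcon => hi (mon_injective hcon)
    · intro hm
      exact absurd (Finset.mem_univ m) hm
  · rw [Finset.sum_eq_zero]
    · by_contra hcon
      apply h
      have h1 := gnet_coeff' e W 6 a μ 64 (by norm_num) hcon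
      rw [h0] at h1
      exact mem_mon h1.1 h1.2
    · intro m _
      rw [coeff_monomial, if_neg]
      exact fun hcon => h ⟨m, hcon.symm⟩

theorem psi_eq (i : ℕ) : net ve wu (pt SS i) 7 0 = ∑ m : Fin 65, C ((i : ℂ) ^ (m : ℕ)) * phi m := by
  have h1 : net ve wu (pt SS i) 7 0 = eval (pt SS i) (gnet ve wu 7 0) := by
    rw [gnet, map_net]
    simp only [eval_C, eval_X]
  rw [h1, gnet_eq_sum ve rfl, map_sum]
  refine Finset.sum_congr rfl fun m _ => ?_
  rw [eval_monomial]
  have h4 : ((mon m).prod fun b k => pt SS i b ^ k) =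
      pt SS i 0 ^ (m : ℕ) * pt SS i 1 ^ (64 - (m : ℕ)) := by
    rw [mon, Finsupp.prod_add_index' (h := fun b k => pt SS i b ^ k) (fun _ => pow_zero _)
      (fun _ _ _ => pow_add _ _ _),
      Finsupp.prod_single_index (h := fun b k => pt SS i b ^ k) (pow_zero _),
      Finsupp.prod_single_index (h := fun b k => pt SS i b ^ k) (pow_zero _)]
  rw [h4]
  have h2 : pt SS i 0 = C (i : ℂ) := by
    rw [pt, if_pos rfl]
    exact (map_natCast C i).symm
  have h3 : pt SS i 1 = 1 := by
    rw [pt, if_neg one_ne_zero, if_pos rfl]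
  rw [h2, h3, one_pow, mul_one, mul_comm, C_pow]
  rfl

theorem det_phi : (Matrix.of fun m j : Fin 65 => eval (0 : Fin 65 → ℂ) (pderiv j (phi m))).det ≠ 0 := by
  have h1 : (Matrix.of fun i j : Fin 65 => mat ℂ i j) =
      (Matrix.of fun i m : Fin 65 => ((i : ℕ) : ℂ) ^ (m : ℕ)) *
      (Matrix.of fun m j : Fin 65 => eval (0 : Fin 65 → ℂ) (pderiv j (phi m))) := by
    ext i j
    rw [Matrix.mul_apply, Matrix.of_apply, ← eval_pderiv_net, psi_eq, map_sum, map_sum]
    refine Finset.sum_congr rfl fun m _ => ?_
    rw [pderiv_C_mul, map_mul, eval_C]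
    rfl
  intro h2
  apply det_complex
  rw [h1, Matrix.det_mul, h2, mul_zero]

/-- the substitution -/
noncomputable def sub (p : ℕ × (ℕ →₀ ℕ)) : SS :=
  ∑ m : Fin 65, if p = ((0 : ℕ), mon m) then X m else 0

theorem eval_sub (v : Fin 65 → ℂ) (c : ℕ × (ℕ →₀ ℕ) → ℂ)
    (hc : ∀ p, c p ≠ 0 → ∃ m : Fin 65, p = ((0 : ℕ), mon m))
    (hv : ∀ m, c ((0 : ℕ), mon m) = v m) (p : ℕ × (ℕ →₀ ℕ)) : eval v (sub p) = c p := by
  rw [sub, map_sum]
  by_cases h : ∃ m : Fin 65, p = ((0 : ℕ), mon m)
  · obtain ⟨m, rfl⟩ := h
    rw [Finset.sum_eq_single m]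
    · rw [if_pos rfl, eval_X, hv]
    · intro i _ hi
      rw [if_neg, map_zero]
      exact fun hcon => hi (mon_injective (Prod.ext_iff.mp hcon).2).symm
    · intro hm
      exact absurd (Finset.mem_univ m) hm
  · rw [Finset.sum_eq_zero]
    · by_contra hcon
      exact h (hc p (Ne.symm hcon))
    · intro m _
      rw [if_neg, map_zero]
      exact fun hcon => h ⟨m, hcon⟩

theorem fill_ve : Fill ve := by
  classical
  intro P hP c hc
  -- the polynomial in 65 variables
  have hQ : aeval sub P = (0 : SS) := by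
    apply jac phi 0 det_phi
    apply MvPolynomial.funext
    intro u
    rw [map_zero]
    have h1 := hP (fun k a b => eval u (wu k a b))
    rw [← h1]
    have h2 : eval u (aeval phi (aeval sub P)) = eval (fun p => eval (fun m => eval u (phi m)) (sub p)) P := by
      have e1 : ∀ Q : SS, eval u (aeval phi Q) = eval (fun m => eval u (phi m)) Q := by
        intro Q
        induction Q using MvPolynomial.induction_on with
        | C a => simp
        | add p q hp hq => rw [map_add, map_add, hp, hq, map_add]
        | mul_X p k hp => rw [map_mul, map_mul, hp, map_mul, aeval_X, eval_X]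
      rw [e1]
      generalize (fun m => eval u (phi m)) = v
      induction P using MvPolynomial.induction_on with
      | C a => simp
      | add p q hp hq =>
        rw [map_add, map_add, map_add]
        congr 1
        · exact MvPolynomial.induction_on (motive := fun p => eval v (aeval sub p) =
            eval (fun p => eval v (sub p)) p) p (fun a => by simp)
            (fun p q hp hq => by rw [map_add, map_add, hp, hq, map_add])
            (fun p k hp => by rw [map_mul, map_mul, hp, map_mul, aeval_X, eval_X])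
        · exact MvPolynomial.induction_on (motive := fun p => eval v (aeval sub p) =
            eval (fun p => eval v (sub p)) p) q (fun a => by simp)
            (fun p q hp hq => by rw [map_add, map_add, hp, hq, map_add])
            (fun p k hp => by rw [map_mul, map_mul, hp, map_mul, aeval_X, eval_X])
      | mul_X p k hp =>
        exact MvPolynomial.induction_on (motive := fun p => eval v (aeval sub p) =
            eval (fun p => eval v (sub p)) p) (p * X k) (fun a => by simp)
            (fun p q hp hq => by rw [map_add, map_add, hp, hq, map_add])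
            (fun p k hp => by rw [map_mul, map_mul, hp, map_mul, aeval_X, eval_X])
    rw [h2]
    congr 2
    funext p
    apply eval_sub
    · intro q hq
      have hq1 : q.1 = 0 := by
        by_contra hne
        apply hq
        have : gnet ve (fun k a b => eval u (wu k a b)) 7 q.1 = 0 := by
          rw [gnet_succ]
          refine Finset.sum_eq_zero fun b _ => ?_
          have h3 : eval u (wu 6 q.1 b) = 0 := by
            rw [wu, if_pos ⟨rfl, hne⟩, map_zero]
          rw [h3, C_0, zero_mul]
        rw [this, coeff_zero]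
      have h4 := gnet_coeff' ve _ 6 q.1 q.2 64 (by norm_num) hq
      have hv0 : ve 0 = 2 := rfl
      rw [hv0] at h4
      obtain ⟨m, hm⟩ := mem_mon h4.1 h4.2
      exact ⟨m, Prod.ext hq1 hm⟩
    · intro m
      show coeff (mon m) (gnet ve (fun k a b => eval u (wu k a b)) 7 0) = eval u (phi m)
      rw [phi, ← coeff_map]
      congr 1
      have h1 := map_net (MvPolynomial.map (σ := ℕ) (eval u)) ve
        (fun k a b => C (wu k a b)) X 7 0
      simp only [map_C, map_X] at h1
      exact h1.symm
  have h5 : eval c P = eval (fun m => c ((0 : ℕ), mon m)) (aeval sub P) := by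
    have e2 : ∀ P : MvPolynomial (ℕ × (ℕ →₀ ℕ)) ℂ, ∀ v : Fin 65 → ℂ,
        eval v (aeval sub P) = eval (fun p => eval v (sub p)) P := by
      intro P v
      induction P using MvPolynomial.induction_on with
      | C a => simp
      | add p q hp hq => rw [map_add, map_add, hp, hq, map_add]
      | mul_X p k hp => rw [map_mul, map_mul, hp, map_mul, aeval_X, eval_X]
    rw [e2]
    congr 2
    funext p
    symm
    apply eval_sub
    · intro q hq
      obtain ⟨h6, h7, h8⟩ := hc q hq
      have hv7 : ve 7 = 1 := rfl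
      rw [hv7] at h6
      have hv0 : ve 0 = 2 := rfl
      rw [hv0] at h8
      have h64 : (2 : ℕ) ^ (7 - 1) = 64 := by norm_num
      rw [h64, ← Finsupp.degree_apply] at h7
      obtain ⟨m, hm⟩ := mem_mon h7 (fun b hb => Finset.mem_range.mpr (h8 b hb))
      exact ⟨m, Prod.ext (by omega) hm⟩
    · intro m
      rfl
  rw [h5, hQ, map_zero]

end Run7.h49
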