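import Pool.Agent.Run7.h49.Net

/-!
# Networks with constant weights are forms
-/

set_option autoImplicit false

namespace Run7.h49

open MvPolynomial

variable {R : Type*} [CommRing R]

/-- the network with weights in the base ring, evaluated at the variables -/
noncomputable def gnet (e : ℕ → ℕ) (W : ℕ → ℕ → ℕ → R) (k a : ℕ) : MvPolynomial ℕ R :=
  net e (fun k a b => C (W k a b)) X k a

theorem gnet_succ (e : ℕ → ℕ) (W : ℕ → ℕ → ℕ → R) (k a : ℕ) :
    gnet e W (k + 1) a = ∑ b ∈ Finset.range (e k), C (W k a b) * gnet e W k b ^ ex k := rfl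

theorem gnet_homog (e : ℕ → ℕ) (W : ℕ → ℕ → ℕ → R) (k a : ℕ) :
    (gnet e W (k + 1) a).IsHomogeneous (2 ^ k) := by
  induction k generalizing a with
  | zero =>
    rw [gnet_succ]
    refine IsHomogeneous.sum _ _ _ fun b _ => ?_
    have h1 : gnet e W 0 b ^ ex 0 = (X b : MvPolynomial ℕ R) := by
      show (X b : MvPolynomial ℕ R) ^ 1 = X b
      rw [pow_one]
    rw [h1]
    have h2 := (isHomogeneous_C ℕ (W 0 a b)).mul (isHomogeneous_X R b)
    simpa using h2
  | succ k ih =>
    rw [gnet_succ]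
    refine IsHomogeneous.sum _ _ _ fun b _ => ?_
    have h1 : ex (k + 1) = 2 := rfl
    rw [h1]
    have h2 := (isHomogeneous_C ℕ (W (k + 1) a b)).mul ((ih b).pow 2)
    have h3 : 0 + 2 ^ k * 2 = 2 ^ (k + 1) := by ring
    rw [h3] at h2
    exact h2

theorem gnet_supported (e : ℕ → ℕ) (W : ℕ → ℕ → ℕ → R) (k a : ℕ) :
    gnet e W (k + 1) a ∈ supported R {b | b < e 0} := by
  induction k generalizing a with
  | zero =>
    rw [gnet_succ]
    refine Subalgebra.sum_mem _ fun b hb => ?_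
    have h1 : gnet e W 0 b ^ ex 0 = (X b : MvPolynomial ℕ R) := by
      show (X b : MvPolynomial ℕ R) ^ 1 = X b
      rw [pow_one]
    rw [h1]
    refine Subalgebra.mul_mem _ (Subalgebra.algebraMap_mem _ _) ?_
    rw [supported_eq_adjoin_X]
    exact Algebra.subset_adjoin ⟨b, Finset.mem_range.mp hb, rfl⟩
  | succ k ih =>
    rw [gnet_succ]
    refine Subalgebra.sum_mem _ fun b _ => ?_
    exact Subalgebra.mul_mem _ (Subalgebra.algebraMap_mem _ _) (Subalgebra.pow_mem _ (ih b) _)

theorem gnet_coeff (e : ℕ → ℕ) (W : ℕ → ℕ → ℕ → R) (k a : ℕ) (μ : ℕ →₀ ℕ)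
    (h : coeff μ (gnet e W (k + 1) a) ≠ 0) :
    μ ∈ Finset.finsuppAntidiag (Finset.range (e 0)) (2 ^ k) := by
  rw [Finset.mem_finsuppAntidiag']
  have h1 : μ.degree = 2 ^ k := by
    by_contra hcon
    exact h ((gnet_homog e W k a).coeff_eq_zero hcon)
  have h2 : μ.support ⊆ Finset.range (e 0) := by
    intro b hb
    have h3 := gnet_supported e W k a
    rw [mem_supported] at h3
    have h4 : b ∈ (gnet e W (k + 1) a).vars := by
      rw [mem_vars_iff_mem_support]
      exact ⟨μ, mem_support_iff.mpr h, hb⟩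
    exact Finset.mem_range.mpr (h3 h4)
  exact ⟨h1, h2⟩

end Run7.h49
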