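import Pool.Agent.Run7.h49.NonFill

/-!
# Six networks that are not filling
-/

set_option autoImplicit false

namespace Run7.h49

open MvPolynomial

/-- widths from a list -/
def vec (l : List ℕ) (k : ℕ) : ℕ := l.getD k 0

abbrev LL : Type := FractionRing (MvPolynomial (ℕ × ℕ × ℕ) ℂ)

theorem seg' {c : ℕ} (e : ℕ → ℕ) (i t j : ℕ) (hj : j = i + (t + 1)) (c' : ℕ)
    (hc : c + e j * ((e i + 2 ^ t - 1).choose (2 ^ t) - 1) ≤ c')
    (h : ∃ s : Finset LL, s.card ≤ c ∧ Rep ℂ s (e i) (gnet e gw i)) :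
    ∃ s : Finset LL, s.card ≤ c' ∧ Rep ℂ s (e j) (gnet e gw j) := by
  obtain ⟨s, hs, hr⟩ := h
  obtain ⟨s', hs', hr'⟩ := hr.seg t
  rw [← hj] at hs' hr'
  exact ⟨s', hs'.trans ((Nat.add_le_add_right hs _).trans hc), hr'⟩

theorem fin' {c : ℕ} (e : ℕ → ℕ) (i t : ℕ) (hj : 7 = i + (t + 1))
    (hc : c + (e i + 2 ^ t - 1).choose (2 ^ t) < 65)
    (h : ∃ s : Finset LL, s.card ≤ c ∧ Rep ℂ s (e i) (gnet e gw i)) :
    ∃ s : Finset LL, s.card < 65 ∧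
      ∀ m, coeff m (gnet e gw 7 0) ∈ IntermediateField.adjoin ℂ (s : Set LL) := by
  obtain ⟨s, hs, hr⟩ := h
  obtain ⟨s', hs', hr'⟩ := hr.seg_final t
  rw [← hj] at hr'
  exact ⟨s', lt_of_le_of_lt (hs'.trans (Nat.add_le_add_right hs _)) hc, hr'⟩

theorem zero' (e : ℕ → ℕ) : ∃ s : Finset LL, s.card ≤ 0 ∧ Rep ℂ s (e 0) (gnet e gw 0) :=
  ⟨∅, le_rfl, rep_zero _ e gw⟩

theorem not_fill_1 : ¬ Fill (vec [2, 2, 4, 5, 4, 6, 4, 1]) :=
  not_fill_of_bound _ rfl rfl <|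
    fin' (c := 2) _ 1 5 rfl (by decide) <|
    seg' (c := 0) _ 0 0 1 rfl 2 (by decide) <| zero' _

theorem not_fill_2 : ¬ Fill (vec [2, 3, 3, 5, 4, 6, 4, 1]) :=
  not_fill_of_bound _ rfl rfl <|
    fin' (c := 26) _ 4 2 rfl (by decide) <|
    seg' (c := 6) _ 2 1 4 rfl 26 (by decide) <|
    seg' (c := 0) _ 0 1 2 rfl 6 (by decide) <| zero' _

theorem not_fill_3 : ¬ Fill (vec [2, 3, 4, 4, 4, 6, 4, 1]) :=
  not_fill_of_bound _ rfl rfl <|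
    fin' (c := 28) _ 4 2 rfl (by decide) <|
    seg' (c := 16) _ 3 0 4 rfl 28 (by decide) <|
    seg' (c := 0) _ 0 2 3 rfl 16 (by decide) <| zero' _

theorem not_fill_4 : ¬ Fill (vec [2, 3, 4, 5, 3, 6, 4, 1]) :=
  not_fill_of_bound _ rfl rfl <|
    fin' (c := 24) _ 4 2 rfl (by decide) <|
    seg' (c := 0) _ 0 3 4 rfl 24 (by decide) <| zero' _

theorem not_fill_5 : ¬ Fill (vec [2, 3, 4, 5, 4, 5, 4, 1]) :=
  not_fill_of_bound _ rfl rfl <|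
    fin' (c := 47) _ 5 1 rfl (by decide) <|
    seg' (c := 32) _ 4 0 5 rfl 47 (by decide) <|
    seg' (c := 0) _ 0 3 4 rfl 32 (by decide) <| zero' _

theorem not_fill_6 : ¬ Fill (vec [2, 3, 4, 5, 4, 6, 3, 1]) :=
  not_fill_of_bound _ rfl rfl <|
    fin' (c := 59) _ 6 0 rfl (by decide) <|
    seg' (c := 32) _ 4 1 6 rfl 59 (by decide) <|
    seg' (c := 0) _ 0 3 4 rfl 32 (by decide) <| zero' _

end Run7.h49
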