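import Pool.Agent.Run7.h49.FillMain
import Pool.Agent.Run7.h49.Small

/-!
# A minimal filling width vector that is not unimodal
-/

set_option autoImplicit false

namespace Run7.h49

open MvPolynomial

theorem Fill.congr {e e' : ℕ → ℕ} (h : ∀ k ≤ 7, e k = e' k) (he : Fill e) : Fill e' := by
  intro P hP c hc
  refine he P (fun W => ?_) c (by rw [h 0 (by omega), h 7 le_rfl]; exact hc)
  have h1 : ∀ a, gnet e W 7 a = gnet e' W 7 a := by
    intro a
    rw [gnet, gnet, net_congr e e' _ _ X 7 (fun j hj => h j (by omega)) (fun j hj => rfl)]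
  simpa only [h1] using hP W

/-- the predicate of the problem for depth `7` and activation degree `2` -/
def Filling (e : Fin (7 + 1) → ℕ) : Prop :=
  ∀ P : MvPolynomial (ℕ × (ℕ →₀ ℕ)) ℂ,
      (∀ W : Fin 7 → ℕ → ℕ → ℂ,
        MvPolynomial.eval (fun p : ℕ × (ℕ →₀ ℕ) => MvPolynomial.coeff p.2
          ((List.finRange 7).foldl
            (fun (h : ℕ → MvPolynomial ℕ ℂ) (k : Fin 7) (a : ℕ) =>
              ∑ b ∈ Finset.range (e k.castSucc),
                MvPolynomial.C (W k a b) * h b ^ (if (k : ℕ) = 0 then 1 else 2))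
            (fun b : ℕ => (MvPolynomial.X b : MvPolynomial ℕ ℂ)) p.1)) P = 0) →
      ∀ c : ℕ × (ℕ →₀ ℕ) → ℂ,
        (∀ p : ℕ × (ℕ →₀ ℕ), c p ≠ 0 →
          p.1 < e (Fin.last 7) ∧ (∑ b ∈ p.2.support, p.2 b) = 2 ^ (7 - 1) ∧
            ∀ b ∈ p.2.support, b < e 0) →
        MvPolynomial.eval c P = 0

theorem foldl_gnet (e : Fin (7 + 1) → ℕ) (W : Fin 7 → ℕ → ℕ → ℂ) :
    ((List.finRange 7).foldl
      (fun (h : ℕ → MvPolynomial ℕ ℂ) (k : Fin 7) (a : ℕ) =>
        ∑ b ∈ Finset.range (e k.castSucc),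
          MvPolynomial.C (W k a b) * h b ^ (if (k : ℕ) = 0 then 1 else 2))
      (fun b : ℕ => (MvPolynomial.X b : MvPolynomial ℕ ℂ))) = gnet (ext 7 e) (extW 7 W) 7 := by
  rw [foldl_eq_aux e (fun k a b => C (W k a b))]
  funext a
  rw [gnet]
  congr 1
  funext k a b
  simp only [extW]
  split_ifs
  · rfl
  · exact C_0.symm

theorem filling_iff (e : Fin (7 + 1) → ℕ) : Filling e ↔ Fill (ext 7 e) := by
  constructor
  · intro h P hP c hc
    refine h P (fun W => ?_) c hc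
    have := hP (extW 7 W)
    rw [foldl_gnet]
    exact this
  · intro h P hP c hc
    refine h P (fun W => ?_) c hc
    have := hP (fun k => W k)
    rw [foldl_gnet] at this
    have h1 : ∀ a, gnet (ext 7 e) W 7 a = gnet (ext 7 e) (extW 7 (fun k : Fin 7 => W k)) 7 a := by
      intro a
      rw [gnet, gnet, net_congr (ext 7 e) (ext 7 e) _ _ X 7 (fun j hj => rfl)]
      intro j hj
      funext a b
      rw [extW, dif_pos hj]
    simpa only [h1] using this

/-- the width vector -/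
def dd : Fin (7 + 1) → ℕ := ![2, 3, 4, 5, 4, 6, 4, 1]

theorem filling_dd : Filling dd := by
  rw [filling_iff]
  refine Fill.congr ?_ fill_ve
  intro k hk
  interval_cases k <;> decide

theorem reduce (d' : Fin (7 + 1) → ℕ) (h0 : d' 0 = 2) (h7 : d' (Fin.last 7) = 1) (l : List ℕ)
    (hl0 : vec l 0 = 2) (hl7 : vec l 7 = 1)
    (h : ∀ i : Fin 8, d' i ≤ vec l i) (hd : Filling d') : Fill (vec l) := by
  rw [filling_iff] at hd
  refine hd.mono ?_ ?_ ?_
  · intro k
    rw [ext]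
    split_ifs with hk
    · exact h ⟨k, hk⟩
    · exact Nat.zero_le _
  · rw [hl0]
    exact h0
  · rw [hl7]
    exact h7

theorem minimal_dd (d' : Fin (7 + 1) → ℕ) (h0 : d' 0 = dd 0) (h7 : d' (Fin.last 7) = dd (Fin.last 7))
    (hle : d' ≤ dd) (hd : Filling d') : d' = dd := by
  have h0' : d' 0 = 2 := h0
  have h7' : d' (Fin.last 7) = 1 := h7
  have e0 : d' 0 ≤ 2 := hle 0
  have e1 : d' 1 ≤ 3 := hle 1
  have e2 : d' 2 ≤ 4 := hle 2
  have e3 : d' 3 ≤ 5 := hle 3
  have e4 : d' 4 ≤ 4 := hle 4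
  have e5 : d' 5 ≤ 6 := hle 5
  have e6 : d' 6 ≤ 4 := hle 6
  have e7 : d' 7 ≤ 1 := hle 7
  by_cases c1 : d' 1 = 3
  swap
  · exact absurd (reduce d' h0' h7' [2, 2, 4, 5, 4, 6, 4, 1] rfl rfl (fun i => by
      fin_cases i <;> simp [vec] <;> omega) hd) not_fill_1
  by_cases c2 : d' 2 = 4
  swap
  · exact absurd (reduce d' h0' h7' [2, 3, 3, 5, 4, 6, 4, 1] rfl rfl (fun i => by
      fin_cases i <;> simp [vec] <;> omega) hd) not_fill_2
  by_cases c3 : d' 3 = 5
  swap
  · exact absurd (reduce d' h0' h7' [2, 3, 4, 4, 4, 6, 4, 1] rfl rfl (fun i => by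
      fin_cases i <;> simp [vec] <;> omega) hd) not_fill_3
  by_cases c4 : d' 4 = 4
  swap
  · exact absurd (reduce d' h0' h7' [2, 3, 4, 5, 3, 6, 4, 1] rfl rfl (fun i => by
      fin_cases i <;> simp [vec] <;> omega) hd) not_fill_4
  by_cases c5 : d' 5 = 6
  swap
  · exact absurd (reduce d' h0' h7' [2, 3, 4, 5, 4, 5, 4, 1] rfl rfl (fun i => by
      fin_cases i <;> simp [vec] <;> omega) hd) not_fill_5
  by_cases c6 : d' 6 = 4
  swap
  · exact absurd (reduce d' h0' h7' [2, 3, 4, 5, 4, 6, 3, 1] rfl rfl (fun i => by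
      fin_cases i <;> simp [vec] <;> omega) hd) not_fill_6
  funext i
  fin_cases i
  · exact h0'
  · exact c1
  · exact c2
  · exact c3
  · exact c4
  · exact c5
  · exact c6
  · exact h7'

theorem not_unimodal_dd : ¬ ∃ i : Fin (7 + 1), (∀ j k : Fin (7 + 1), j ≤ k → k ≤ i → dd j ≤ dd k) ∧
    (∀ j k : Fin (7 + 1), i ≤ j → j ≤ k → dd k ≤ dd j) := by
  rintro ⟨i, h1, h2⟩
  by_cases hi : 4 ≤ i
  · have := h1 3 4 (by decide) hi
    revert this
    decide
  · have := h2 4 5 (le_of_lt (not_le.mp hi)) (by decide)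
    revert this
    decide

end Run7.h49
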