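import Pool.Agent.Run7.h49.Homog

/-!
# Fields of definition of the layers of a network
-/

set_option autoImplicit false

namespace Run7.h49

open MvPolynomial

variable {K L : Type} [Field K] [Field L] [Algebra K L]

/-- the polynomials with coefficients in an intermediate field -/
noncomputable def Over (F : IntermediateField K L) : Subring (MvPolynomial ℕ L) :=
  (MvPolynomial.map (algebraMap F L)).range

theorem X_mem_over (F : IntermediateField K L) (b : ℕ) : (X b : MvPolynomial ℕ L) ∈ Over F :=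
  ⟨X b, map_X _ _⟩

theorem C_mem_over (F : IntermediateField K L) {c : L} (hc : c ∈ F) :
    (C c : MvPolynomial ℕ L) ∈ Over F := ⟨C ⟨c, hc⟩, map_C _ _⟩

theorem coeff_mem_of_over (F : IntermediateField K L) {f : MvPolynomial ℕ L} (hf : f ∈ Over F)
    (m : ℕ →₀ ℕ) : coeff m f ∈ F := by
  obtain ⟨g, rfl⟩ := hf
  rw [coeff_map]
  exact (coeff m g).2

theorem over_mono {F F' : IntermediateField K L} (h : F ≤ F') : Over F ≤ Over F' := by
  rintro f ⟨g, rfl⟩
  refine ⟨MvPolynomial.map (IntermediateField.inclusion h).toRingHom g, ?_⟩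
  rw [MvPolynomial.map_map]
  rfl

variable (K) in
/-- up to scalars, the first `n` polynomials of the family are defined over the field generated
by `s` -/
def Rep (s : Finset L) (n : ℕ) (h : ℕ → MvPolynomial ℕ L) : Prop :=
  ∀ b < n, ∃ l : L, ∃ f ∈ Over (IntermediateField.adjoin K (s : Set L)), h b = C l * f

theorem expand (n r : ℕ) (A : Finset (ℕ →₀ ℕ)) (hA : ∀ μ ∈ A, μ.support ⊆ Finset.range n)
    (G : MvPolynomial ℕ L) (hG : ∀ μ, coeff μ G ≠ 0 → μ ∈ A) (h f : ℕ → MvPolynomial ℕ L)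
    (l : ℕ → L) (hh : ∀ b < n, h b = C (l b) * f b) :
    aeval (fun b => h b ^ r) G = ∑ μ ∈ A,
      C (coeff μ G * ∏ b ∈ Finset.range n, l b ^ (r * μ b)) *
        ∏ b ∈ Finset.range n, f b ^ (r * μ b) := by
  have h1 : G = ∑ μ ∈ A, monomial μ (coeff μ G) := by
    conv_lhs => rw [G.as_sum]
    refine Finset.sum_subset (fun μ hμ => hG μ (mem_support_iff.mp hμ)) ?_
    intro μ _ hμ
    rw [notMem_support_iff.mp hμ, monomial_zero]
  conv_lhs => rw [h1]
  rw [map_sum]
  refine Finset.sum_congr rfl fun μ hμ => ?_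
  rw [aeval_monomial, Finsupp.prod]
  rw [Finset.prod_subset (hA μ hμ)]
  · rw [MvPolynomial.algebraMap_eq, C_mul, mul_assoc]
    congr 1
    rw [map_prod, ← Finset.prod_mul_distrib]
    refine Finset.prod_congr rfl fun b hb => ?_
    rw [hh b (Finset.mem_range.mp hb), ← pow_mul, mul_pow, C_pow]
  · intro b _ hb
    rw [Finsupp.notMem_support_iff.mp hb, pow_zero]

theorem one_row (A : Finset (ℕ →₀ ℕ)) (c : (ℕ →₀ ℕ) → L) :
    ∃ T : Finset L, T.card ≤ A.card - 1 ∧ ∃ l : L, ∃ d : (ℕ →₀ ℕ) → L,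
      (∀ μ ∈ A, d μ ∈ T ∨ d μ = 1 ∨ d μ = 0) ∧ ∀ μ ∈ A, c μ = l * d μ := by
  classical
  by_cases h : ∃ μ ∈ A, c μ ≠ 0
  · obtain ⟨μ₀, hμ₀, hc⟩ := h
    refine ⟨(A.erase μ₀).image (fun μ => c μ / c μ₀), ?_, c μ₀, fun μ => c μ / c μ₀, ?_, ?_⟩
    · refine Finset.card_image_le.trans ?_
      rw [Finset.card_erase_of_mem hμ₀]
    · intro μ hμ
      by_cases h0 : μ = μ₀
      · right; left
        rw [h0]
        exact div_self hc
      · left
        exact Finset.mem_image_of_mem _ (Finset.mem_erase.mpr ⟨h0, hμ⟩)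
    · intro μ _
      rw [mul_div_cancel₀ _ hc]
  · push Not at h
    refine ⟨∅, by simp, 0, fun _ => 0, fun μ _ => Or.inr (Or.inr rfl), ?_⟩
    intro μ hμ
    rw [h μ hμ, zero_mul]

theorem Rep.step {s : Finset L} {n : ℕ} {h : ℕ → MvPolynomial ℕ L} (hs : Rep K s n h) (r : ℕ)
    (A : Finset (ℕ →₀ ℕ)) (hA : ∀ μ ∈ A, μ.support ⊆ Finset.range n) (n' : ℕ)
    (h' G : ℕ → MvPolynomial ℕ L) (hG : ∀ a μ, coeff μ (G a) ≠ 0 → μ ∈ A)
    (hh : ∀ a, h' a = aeval (fun b => h b ^ r) (G a)) :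
    ∃ s' : Finset L, s'.card ≤ s.card + n' * (A.card - 1) ∧ Rep K s' n' h' := by
  classical
  have h1 : ∀ b, ∃ l : L, ∃ f ∈ Over (IntermediateField.adjoin K (s : Set L)),
      b < n → h b = C l * f := by
    intro b
    by_cases hb : b < n
    · obtain ⟨l, f, hf, hlf⟩ := hs b hb
      exact ⟨l, f, hf, fun _ => hlf⟩
    · exact ⟨0, 0, Subring.zero_mem _, fun hb' => absurd hb' hb⟩
  choose l f hf hlf using h1
  have h2 : ∀ a : ℕ, ∃ T : Finset L, T.card ≤ A.card - 1 ∧ ∃ m : L, ∃ d : (ℕ →₀ ℕ) → L,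
      (∀ μ ∈ A, d μ ∈ T ∨ d μ = 1 ∨ d μ = 0) ∧
      ∀ μ ∈ A, coeff μ (G a) * ∏ b ∈ Finset.range n, l b ^ (r * μ b) = m * d μ := fun a =>
    one_row A _
  choose T hT m d hd hmd using h2
  refine ⟨s ∪ (Finset.range n').biUnion T, ?_, ?_⟩
  · refine (Finset.card_union_le _ _).trans (Nat.add_le_add_left ?_ _)
    refine Finset.card_biUnion_le.trans ?_
    refine (Finset.sum_le_card_nsmul _ _ _ fun a _ => hT a).trans ?_
    rw [Finset.card_range, smul_eq_mul]
  · intro a ha
    have hsub : IntermediateField.adjoin K (s : Set L) ≤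
        IntermediateField.adjoin K ((s ∪ (Finset.range n').biUnion T : Finset L) : Set L) :=
      IntermediateField.adjoin.mono K _ _ (by
        intro x hx
        exact Finset.mem_coe.mpr (Finset.mem_union_left _ (Finset.mem_coe.mp hx)))
    refine ⟨m a, ∑ μ ∈ A, C (d a μ) * ∏ b ∈ Finset.range n, f b ^ (r * μ b), ?_, ?_⟩
    · refine Subring.sum_mem _ fun μ hμ => Subring.mul_mem _ (C_mem_over _ ?_) ?_
      · rcases hd a μ hμ with h3 | h3 | h3
        · apply IntermediateField.subset_adjoin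
          refine Finset.mem_coe.mpr (Finset.mem_union_right _ (Finset.mem_biUnion.mpr ⟨a, ?_, h3⟩))
          exact Finset.mem_range.mpr ha
        · rw [h3]; exact one_mem _
        · rw [h3]; exact zero_mem _
      · exact over_mono hsub (Subring.prod_mem _ fun b _ => Subring.pow_mem _ (hf b) _)
    · rw [hh a, expand n r A hA (G a) (hG a) h f l hlf, Finset.mul_sum]
      refine Finset.sum_congr rfl fun μ hμ => ?_
      rw [hmd a μ hμ, C_mul, mul_assoc]

theorem Rep.final {s : Finset L} {n : ℕ} {h : ℕ → MvPolynomial ℕ L} (hs : Rep K s n h) (r : ℕ)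
    (A : Finset (ℕ →₀ ℕ)) (hA : ∀ μ ∈ A, μ.support ⊆ Finset.range n)
    (p G : MvPolynomial ℕ L) (hG : ∀ μ, coeff μ G ≠ 0 → μ ∈ A)
    (hp : p = aeval (fun b => h b ^ r) G) :
    ∃ s' : Finset L, s'.card ≤ s.card + A.card ∧
      ∀ m, coeff m p ∈ IntermediateField.adjoin K (s' : Set L) := by
  classical
  have h1 : ∀ b, ∃ l : L, ∃ f ∈ Over (IntermediateField.adjoin K (s : Set L)),
      b < n → h b = C l * f := by
    intro b
    by_cases hb : b < n
    · obtain ⟨l, f, hf, hlf⟩ := hs b hb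
      exact ⟨l, f, hf, fun _ => hlf⟩
    · exact ⟨0, 0, Subring.zero_mem _, fun hb' => absurd hb' hb⟩
  choose l f hf hlf using h1
  refine ⟨s ∪ A.image (fun μ => coeff μ G * ∏ b ∈ Finset.range n, l b ^ (r * μ b)), ?_, ?_⟩
  · exact (Finset.card_union_le _ _).trans (Nat.add_le_add_left Finset.card_image_le _)
  · intro m
    apply coeff_mem_of_over
    rw [hp, expand n r A hA G hG h f l hlf]
    refine Subring.sum_mem _ fun μ hμ => Subring.mul_mem _ (C_mem_over _ ?_) ?_
    · apply IntermediateField.subset_adjoin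
      refine Finset.mem_coe.mpr (Finset.mem_union_right _ ?_)
      exact Finset.mem_image_of_mem _ hμ
    · have hsub : IntermediateField.adjoin K (s : Set L) ≤
          IntermediateField.adjoin K ((s ∪ A.image
            (fun μ => coeff μ G * ∏ b ∈ Finset.range n, l b ^ (r * μ b)) : Finset L) : Set L) :=
        IntermediateField.adjoin.mono K _ _ (by
          intro x hx
          exact Finset.mem_coe.mpr (Finset.mem_union_left _ (Finset.mem_coe.mp hx)))
      exact over_mono hsub (Subring.prod_mem _ fun b _ => Subring.pow_mem _ (hf b) _)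

end Run7.h49
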